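import Pool.Agent.Q110.Tys
import Mathlib.Data.Complex.Basic
import Mathlib.Data.Set.Finite.Lattice
import Mathlib.Order.Preorder.Finite

/-!
# Small rational solutions of systems `x_i = 1`, `x_i + x_j = x_k`

Positive answer to Q1 of MP_e9426e_al.
-/

set_option autoImplicit false

namespace Pool.Agent.Results.MP_e9426e_al.SmallRationalSolutions

open Pool.Agent.Q110.Tys

variable {n : ℕ}

instance : Finite (Eqn n) := by
  let f : Eqn n → Fin n ⊕ (Fin n × Fin n × Fin n) := fun e => match e with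
    | .one i => Sum.inl i
    | .add i j k => Sum.inr (i, j, k)
  refine Finite.of_injective f ?_
  intro a b h
  cases a <;> cases b <;> simp_all [f]

/-- The set of the equations satisfied by `x`. -/
def eqs (x : Fin n → ℂ) : Set (Eqn n) := {e | e.Sat x}

theorem exists_maximal (x : Fin n → ℂ) : ∃ z : Fin n → ℂ, eqs x ⊆ eqs z ∧
    ∀ w : Fin n → ℂ, eqs z ⊆ eqs w → eqs w = eqs z := by
  have hfin : (Set.range (eqs (n := n)) ∩ {T | eqs x ⊆ T}).Finite := Set.toFinite _
  have hne : (Set.range (eqs (n := n)) ∩ {T | eqs x ⊆ T}).Nonempty :=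
    ⟨eqs x, ⟨x, rfl⟩, Set.Subset.refl (eqs x)⟩
  obtain ⟨T, hT⟩ := hfin.exists_maximal hne
  obtain ⟨⟨⟨z, rfl⟩, hz⟩, hmax⟩ := hT
  refine ⟨z, hz, fun w hw => ?_⟩
  exact Set.Subset.antisymm (hmax ⟨⟨w, rfl⟩, Set.Subset.trans hz hw⟩ hw) hw

theorem unique_of_maximal (z : Fin n → ℂ) (hz : ∀ w : Fin n → ℂ, eqs z ⊆ eqs w → eqs w = eqs z)
    (y : Fin n → ℂ) (hy : ∀ e ∈ eqs z, e.Sat y) : y = z := by
  by_contra hne
  obtain ⟨i, hi⟩ := Function.ne_iff.1 hne
  -- the point of the line through `y` and `z` with vanishing `i`-th coordinate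
  set t : ℂ := z i / (z i - y i) with ht
  have hzy : z i - y i ≠ 0 := sub_ne_zero.2 (Ne.symm hi)
  set w : Fin n → ℂ := fun k => z k + t * (y k - z k) with hw
  have hwi : w i = 0 := by
    rw [hw, ht]
    field_simp
    ring
  have hsub : eqs z ⊆ eqs w := by
    intro e he
    have h1 : e.Sat z := he
    have h2 := hy e he
    cases e with
    | one k =>
      have h1' : z k = 1 := h1
      have h2' : y k = 1 := h2
      show z k + t * (y k - z k) = 1
      rw [h1', h2']
      ring
    | add a b c =>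
      have h1' : z a + z b = z c := h1
      have h2' : y a + y b = y c := h2
      show z a + t * (y a - z a) + (z b + t * (y b - z b)) = z c + t * (y c - z c)
      rw [← h1', ← h2']
      ring
  have h3 : Eqn.add i i i ∈ eqs w := by
    show w i + w i = w i
    rw [hwi, add_zero]
  rw [hz w hsub] at h3
  have h4 : z i + z i = z i := h3
  have h5 : y i + y i = y i := hy _ h3
  apply hi
  rw [add_eq_left.1 h4, add_eq_left.1 h5]

/-- **Q1 is true.**  For all complex `x_1, …, x_n` there are rational `y_1, …, y_n` in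
`[-2^(n-1), 2^(n-1)]` such that `x_i = 1` implies `y_i = 1` and `x_i + x_j = x_k` implies
`y_i + y_j = y_k`. -/
theorem result (n : ℕ) (x : Fin n → ℂ) : ∃ y : Fin n → ℚ,
    (∀ i, y i ∈ Set.Icc (-2 ^ (n - 1) : ℚ) (2 ^ (n - 1))) ∧
    (∀ i, x i = 1 → y i = 1) ∧ ∀ i j k, x i + x j = x k → y i + y j = y k := by
  obtain ⟨z, hxz, hz⟩ := exists_maximal x
  have hu := unique_bound (eqs z) z (fun e he => he) (unique_of_maximal z hz)
  choose y hy1 hy2 hy3 using hu
  refine ⟨y, fun i => ?_, fun i hi => ?_, fun i j k h => ?_⟩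
  · rw [Set.mem_Icc, ← abs_le]
    have h1 : |y i| = |((y i).num : ℚ)| / ((y i).den : ℚ) := by
      conv_lhs => rw [← Rat.num_div_den (y i)]
      rw [abs_div, Nat.abs_cast]
    rw [h1]
    have h2 : (1 : ℚ) ≤ (y i).den := by exact_mod_cast (y i).den_pos
    have h3 : |((y i).num : ℚ)| ≤ 2 ^ (n - 1) := by exact_mod_cast hy2 i
    refine (div_le_self (abs_nonneg _) h2).trans h3
  · have h1 : z i = 1 := hxz (show Eqn.one i ∈ eqs x from hi)
    rw [hy1] at h1
    exact_mod_cast h1
  · have h1 : z i + z j = z k := hxz (show Eqn.add i j k ∈ eqs x from h)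
    rw [hy1, hy1, hy1] at h1
    exact_mod_cast h1

end Pool.Agent.Results.MP_e9426e_al.SmallRationalSolutions
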